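import Mathlib
import Pool.Agent.H723R2.LSWDens

set_option autoImplicit false

open Filter Topology Metric Set

namespace Pool.Agent.Results.MP_071ec9_an.NaturalDensity

open Pool.Agent.H384R2.Fatou

/-- The entire function of Letherman, Schleicher and Wood; `f₀ n = T n` for every integer `n`, where
`T` is the `3x+1` function. -/
noncomputable def f₀ (z : ℂ) : ℂ :=
  z / 2 + (z + 1 / 2) * ((1 - Complex.cos (Real.pi * z)) / 2) +
    1 / Real.pi * (1 / 2 - Complex.cos (Real.pi * z)) * Complex.sin (Real.pi * z)

/-- Among the integers of sign `s` the set `S` has natural density `d`. -/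
def HasDensity (s : ℤ) (S : Set ℤ) (d : ℝ) : Prop :=
  Tendsto (fun N : ℕ => ({n : ℤ | 0 < s * n ∧ s * n ≤ N ∧ n ∈ S}.ncard : ℝ) / N) atTop (𝓝 d)

/-- The integers whose Fatou component is a wandering domain of `f₀`. -/
def WanderingIntegers : Set ℤ := {n | IsWanderingDomain f₀ (FatouComponent f₀ n)}

/-- The integers `n` in the Fatou set whose component is not a wandering domain and is attracted to
the cycle of the integer `a`, of period (dividing) `p`: all points `z` of the component satisfy
`f₀^(k+pm)(z) → a` as `m → ∞`, for some `k`. -/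
def BasinIntegers (a : ℤ) (p : ℕ) : Set ℤ :=
  {n | (n : ℂ) ∈ FatouSet f₀ ∧ ¬ IsWanderingDomain f₀ (FatouComponent f₀ n) ∧
    ∃ k : ℕ, ∀ z ∈ FatouComponent f₀ n,
      Tendsto (fun m : ℕ => f₀^[k + p * m] z) atTop (𝓝 (a : ℂ))}

/-- The cycles of `f₀` in the integers of sign `s`, each represented by its element of least absolute
value. -/
def IsCycleRep (s a : ℤ) : Prop :=
  0 < s * a ∧ (∃ p : ℕ, 0 < p ∧ f₀^[p] (a : ℂ) = a) ∧
    ∀ (j : ℕ) (b : ℤ), f₀^[j] (a : ℂ) = b → s * a ≤ s * b

/-- Let `s = 1` or `s = -1`. Among the integers of sign `s`: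
* the integers lying in wandering domains of `f₀` have a natural density `w`, and `w = 0` only if
  there are none;
* for every integer `a` the integers whose orbits merge with the orbit of `a` have a positive natural
  density `β a`;
* if `a` is periodic, it is a superattracting periodic point, and the integers in non-wandering
  components attracted to the cycle of `a` have the natural density `β a > 0`;
* the densities `β` of the basins of the integer cycles and the density `w` of the wandering
  integers add up to `1`. -/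
theorem result (s : ℤ) (hs : s = 1 ∨ s = -1) : ∃ (w : ℝ) (β : ℤ → ℝ),
    HasDensity s WanderingIntegers w ∧
    (w = 0 ↔ ∀ n : ℤ, 0 < s * n → n ∉ WanderingIntegers) ∧
    (∀ a : ℤ, 0 < s * a → 0 < β a ∧
      HasDensity s {n | ∃ i j : ℕ, f₀^[i] (n : ℂ) = f₀^[j] (a : ℂ)} (β a)) ∧
    (∀ (a : ℤ) (p : ℕ), 0 < s * a → 0 < p → f₀^[p] (a : ℂ) = a →
      HasDerivAt (f₀^[p]) 0 (a : ℂ) ∧ HasDensity s (BasinIntegers a p) (β a)) ∧
    HasSum (fun a : {a : ℤ // IsCycleRep s a} => β a) (1 - w) :=
  Pool.Agent.H723R2.LSW.main hs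

end Pool.Agent.Results.MP_071ec9_an.NaturalDensity
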