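import Mathlib
import Pool.Agent.H384R2.Fatou
import Pool.Agent.H412R2.Final

set_option autoImplicit false

open Filter Topology Metric Set

namespace Pool.Agent.Results.MP_071ec9_an.NonwanderingCount

open Pool.Agent.H384R2.Fatou

/-- The entire function of Letherman, Schleicher and Wood interpolating the `3x+1` map. -/
noncomputable def f₀ (z : ℂ) : ℂ :=
  z / 2 + (z + 1 / 2) * ((1 - Complex.cos (Real.pi * z)) / 2) +
    1 / Real.pi * (1 / 2 - Complex.cos (Real.pi * z)) * Complex.sin (Real.pi * z)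

/-- The `3x+1` function: `n ↦ n/2` for even `n` and `n ↦ (3n+1)/2` for odd `n`. -/
def T (m : ℤ) : ℤ := if m % 2 = 0 then m / 2 else (3 * m + 1) / 2

theorem f₀_int (n : ℤ) : f₀ (n : ℂ) = (T n : ℂ) := by
  have hs : Complex.sin (Real.pi * (n : ℂ)) = 0 := by
    rw [mul_comm]; exact Complex.sin_int_mul_pi n
  unfold f₀ T
  rw [hs]
  rcases Int.even_or_odd n with h | h
  · obtain ⟨m, rfl⟩ := h
    have hc : Complex.cos (Real.pi * ((m + m : ℤ) : ℂ)) = 1 := by
      have := Complex.cos_int_mul_two_pi m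
      rw [← this]; congr 1; push_cast; ring
    rw [hc]
    have h1 : (m + m) % 2 = 0 := by omega
    have h2 : (m + m) / 2 = m := by omega
    simp only [h1, h2, if_true]
    push_cast; ring
  · obtain ⟨m, rfl⟩ := h
    have hc : Complex.cos (Real.pi * ((2 * m + 1 : ℤ) : ℂ)) = -1 := by
      have := Complex.cos_int_mul_two_pi m
      have h3 : (Real.pi : ℂ) * ((2 * m + 1 : ℤ) : ℂ) = m * (2 * Real.pi) + Real.pi := by
        push_cast; ring
      rw [h3, Complex.cos_add_pi, this]
    rw [hc]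
    have h1 : ¬ (2 * m + 1) % 2 = 0 := by omega
    have h2 : (3 * (2 * m + 1) + 1) / 2 = 3 * m + 2 := by omega
    simp only [h1, h2, if_false]
    push_cast; ring

theorem f₀_iter (n : ℤ) (k : ℕ) : f₀^[k] (n : ℂ) = ((T^[k] n : ℤ) : ℂ) := by
  induction k with
  | zero => rfl
  | succ k ih => rw [Function.iterate_succ_apply', Function.iterate_succ_apply', ih, f₀_int]

theorem f₀_hasDerivAt (z : ℂ) : HasDerivAt f₀
    (1 / 2 + ((1 - Complex.cos (Real.pi * z)) / 2 +
      (z + 1 / 2) * ((Complex.sin (Real.pi * z) * Real.pi) / 2)) +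
      (1 / Real.pi * (Complex.sin (Real.pi * z) * Real.pi) * Complex.sin (Real.pi * z) +
        1 / Real.pi * (1 / 2 - Complex.cos (Real.pi * z)) *
          (Complex.cos (Real.pi * z) * Real.pi))) z := by
  have hpi : HasDerivAt (fun z : ℂ => (Real.pi : ℂ) * z) Real.pi z := by
    simpa using (hasDerivAt_id z).const_mul (Real.pi : ℂ)
  have hc : HasDerivAt (fun z : ℂ => Complex.cos (Real.pi * z))
      (-Complex.sin (Real.pi * z) * Real.pi) z :=
    (Complex.hasDerivAt_cos _).comp z hpi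
  have hs : HasDerivAt (fun z : ℂ => Complex.sin (Real.pi * z))
      (Complex.cos (Real.pi * z) * Real.pi) z :=
    (Complex.hasDerivAt_sin _).comp z hpi
  have h1 : HasDerivAt (fun z : ℂ => z / 2) (1 / 2) z := (hasDerivAt_id z).div_const 2
  have h2 : HasDerivAt (fun z : ℂ => z + 1 / 2) 1 z := (hasDerivAt_id z).add_const _
  have h3 := (hc.const_sub 1).div_const 2
  have h4 := h2.mul h3
  have h5 := ((hc.const_sub (1 / 2)).const_mul (1 / (Real.pi : ℂ))).mul hs
  have h6 := (h1.add h4).add h5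
  have h7 := h6.congr_deriv (g' := 1 / 2 + ((1 - Complex.cos (Real.pi * z)) / 2 +
      (z + 1 / 2) * ((Complex.sin (Real.pi * z) * Real.pi) / 2)) +
      (1 / Real.pi * (Complex.sin (Real.pi * z) * Real.pi) * Complex.sin (Real.pi * z) +
        1 / Real.pi * (1 / 2 - Complex.cos (Real.pi * z)) *
          (Complex.cos (Real.pi * z) * Real.pi))) (by ring)
  exact h7

theorem f₀_deriv_int (n : ℤ) : HasDerivAt f₀ 0 (n : ℂ) := by
  have h := f₀_hasDerivAt (n : ℂ)
  have hs : Complex.sin (Real.pi * (n : ℂ)) = 0 := by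
    rw [mul_comm]; exact Complex.sin_int_mul_pi n
  have hc : Complex.cos (Real.pi * (n : ℂ)) ^ 2 = 1 := by
    have := Complex.sin_sq_add_cos_sq ((Real.pi : ℂ) * (n : ℂ))
    rw [hs] at this
    simpa using this
  have hpi : (Real.pi : ℂ) ≠ 0 := by exact_mod_cast Real.pi_ne_zero
  convert h using 1
  rw [hs]
  field_simp
  linear_combination 4 * hc

theorem f₀_differentiable : Differentiable ℂ f₀ := fun z => (f₀_hasDerivAt z).differentiableAt

theorem f₀_iter_deriv (n : ℤ) (p : ℕ) (hp : 0 < p) : HasDerivAt (f₀^[p]) 0 (n : ℂ) := by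
  obtain ⟨q, rfl⟩ : ∃ q, p = q + 1 := ⟨p - 1, by omega⟩
  have h1 : HasDerivAt (f₀^[q]) (deriv (f₀^[q]) (f₀ n)) (f₀ n) :=
    ((f₀_differentiable.iterate q) _).hasDerivAt
  have h2 := h1.comp (n : ℂ) (f₀_deriv_int n)
  simpa using h2

/-- For every integer `a` not divisible by `3` that is periodic under the `3x+1` function `T`, the
number of integers `n`, `|n| ≤ x`, that lie in the Fatou set of `f₀` and whose Fatou component is not
a wandering domain and is attracted (pointwise, on all of the component) to the superattracting cycle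
of `a`, is `x^(1-o(1))`. -/
theorem result :
    ∀ (a : ℤ) (p : ℕ), 0 < p → T^[p] a = a → a % 3 ≠ 0 →
      (f₀^[p] (a : ℂ) = a ∧ HasDerivAt (f₀^[p]) 0 (a : ℂ)) ∧
      Tendsto (fun x : ℕ =>
          Real.log (({n : ℤ | |n| ≤ (x : ℤ) ∧ (n : ℂ) ∈ FatouSet f₀ ∧
              ¬ IsWanderingDomain f₀ (FatouComponent f₀ n) ∧
              ∃ k : ℕ, ∀ z ∈ FatouComponent f₀ n,
                Tendsto (fun m : ℕ => f₀^[k + p * m] z) atTop (𝓝 (a : ℂ))}.ncard : ℕ) : ℝ) /
            Real.log (x : ℝ)) atTop (𝓝 1) := by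
  intro a p hp ha h3
  have hpa : f₀^[p] (a : ℂ) = a := by rw [f₀_iter, ha]
  have hda := f₀_iter_deriv a p hp
  refine ⟨⟨hpa, hda⟩, ?_⟩
  have key : ∀ x : ℕ, {n : ℤ | |n| ≤ (x : ℤ) ∧ (n : ℂ) ∈ FatouSet f₀ ∧
              ¬ IsWanderingDomain f₀ (FatouComponent f₀ n) ∧
              ∃ k : ℕ, ∀ z ∈ FatouComponent f₀ n,
                Tendsto (fun m : ℕ => f₀^[k + p * m] z) atTop (𝓝 (a : ℂ))} =
      {n : ℤ | |n| ≤ (x : ℤ) ∧
                  ∃ k : ℕ,
                    (fun m : ℤ => if m % 2 = 0 then m / 2 else (3 * m + 1) / 2)^[k] n = a} := by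
    intro x
    ext n
    simp only [Set.mem_ofPred_eq]
    constructor
    · rintro ⟨h1, h2, -, k, h4⟩
      refine ⟨h1, ?_⟩
      have h5 := h4 n (mem_connectedComponentIn h2)
      have h6 : ∀ᶠ m : ℕ in atTop, dist (f₀^[k + p * m] (n : ℂ)) (a : ℂ) < 1 :=
        h5.eventually (ball_mem_nhds _ one_pos)
      obtain ⟨m, hm⟩ := h6.exists
      refine ⟨k + p * m, ?_⟩
      rw [f₀_iter, dist_eq_norm, ← Int.cast_sub, Complex.norm_intCast] at hm
      have h7 : |T^[k + p * m] n - a| < 1 := by exact_mod_cast hm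
      have h8 := Int.abs_lt_one_iff.1 h7
      show T^[k + p * m] n = a
      omega
    · rintro ⟨h1, k, h2⟩
      have hk : T^[k] n = a := h2
      have hk' : f₀^[k] (n : ℂ) = a := by rw [f₀_iter, hk]
      have hfat : (n : ℂ) ∈ FatouSet f₀ :=
        mem_fatou_of_hits f₀_differentiable.continuous hp hpa hda hk'
      refine ⟨h1, hfat, ?_, k, ?_⟩
      · apply not_wandering_of_hits hfat hp (k := k)
        rw [f₀_iter, f₀_iter, add_comm k p, Function.iterate_add_apply, hk, ha]
      · exact basin_of_hits f₀_differentiable hp hpa hda hk'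
  have hmain := Pool.Agent.H412R2.S11051_of Pool.Agent.H412R2.main_count a h3
  refine hmain.congr fun x => ?_
  rw [key x]

end Pool.Agent.Results.MP_071ec9_an.NonwanderingCount
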