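import Mathlib
import Pool.Agent.H723R2.LSWDens
import Pool.Agent.H499R2.CO.S3

set_option autoImplicit false

open Filter Topology Metric Set

namespace Pool.Agent.Results.MP_071ec9_an.SolidDomains

open Pool.Agent.H384R2.Fatou

/-- The entire function of Letherman, Schleicher and Wood; `f₀ n = T n` for every integer `n`, where
`T` is the `3x+1` function. -/
noncomputable def f₀ (z : ℂ) : ℂ :=
  z / 2 + (z + 1 / 2) * ((1 - Complex.cos (Real.pi * z)) / 2) +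
    1 / Real.pi * (1 / 2 - Complex.cos (Real.pi * z)) * Complex.sin (Real.pi * z)

/-- The integers whose Fatou component is a wandering domain of `f₀`. -/
def WanderingIntegers : Set ℤ := {n | IsWanderingDomain f₀ (FatouComponent f₀ n)}

/-- The integers `n` in the Fatou set whose component is not a wandering domain and is attracted to
the cycle of the integer `a`, of period (dividing) `p`: all points `z` of the component satisfy
`f₀^(k+pm)(z) → a` as `m → ∞`, for some `k`. -/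
def BasinIntegers (a : ℤ) (p : ℕ) : Set ℤ :=
  {n | (n : ℂ) ∈ FatouSet f₀ ∧ ¬ IsWanderingDomain f₀ (FatouComponent f₀ n) ∧
    ∃ k : ℕ, ∀ z ∈ FatouComponent f₀ n,
      Tendsto (fun m : ℕ => f₀^[k + p * m] z) atTop (𝓝 (a : ℂ))}

/-- The number of `h` in `[1, H]` for which there is no `t` with `2 ^ t ≤ N` and
`f₀^t (x + h) = f₀^t x`. -/
noncomputable def apart (N H : ℕ) (x : ℤ) : ℕ :=
  {h : ℕ | 1 ≤ h ∧ h ≤ H ∧ ∀ t : ℕ, 2 ^ t ≤ N → f₀^[t] ((x + h : ℤ) : ℂ) ≠ f₀^[t] (x : ℂ)}.ncard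

/-- The number of `h` in `[1, H]` for which `x + h` is not in `R`. -/
noncomputable def outside (R : Set ℤ) (H : ℕ) (x : ℤ) : ℕ := {h : ℕ | 1 ≤ h ∧ h ≤ H ∧ x + h ∉ R}.ncard

/-- For some `δ > 0` and all `ε > 0` there is `θ > 0` such that for all large `N` at least `δ N` of the
`1 ≤ n ≤ N` have the property that `s n` and all but at most `ε N ^ θ` of the
`s n + 1, ..., s n + N ^ θ` are in `R`. -/
def FillsIntervals (s : ℤ) (R : Set ℤ) : Prop :=
  ∃ δ : ℝ, 0 < δ ∧ ∀ ε : ℝ, 0 < ε → ∃ θ : ℝ, 0 < θ ∧ ∃ N0 : ℕ, ∀ N ≥ N0,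
    δ * N ≤ ({n : ℕ | 1 ≤ n ∧ n ≤ N ∧ s * (n : ℤ) ∈ R ∧
      (outside R ⌊(N : ℝ) ^ θ⌋₊ (s * n) : ℝ) ≤ ε * ⌊(N : ℝ) ^ θ⌋₊}.ncard : ℝ)

theorem T_eq (x : ℤ) : Pool.Agent.H499R2.CO.Tz 1 x = Pool.Agent.H723R2.LSW.T x := by
  rcases Int.even_or_odd' x with ⟨c, rfl | rfl⟩
  · rw [Pool.Agent.H723R2.LSW.T_even]; unfold Pool.Agent.H499R2.CO.Tz; split_ifs <;> omega
  · rw [Pool.Agent.H723R2.LSW.T_odd]; unfold Pool.Agent.H499R2.CO.Tz; split_ifs <;> omega

theorem T_fun : Pool.Agent.H499R2.CO.Tz 1 = Pool.Agent.H723R2.LSW.T := funext T_eq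

theorem f_iter (k : ℕ) (x : ℤ) : f₀^[k] (x : ℂ) = (((Pool.Agent.H499R2.CO.Tz 1)^[k] x : ℤ) : ℂ) := by
  rw [T_fun]
  exact Pool.Agent.H723R2.LSW.f₀_iter x k

theorem mer_T (x : ℤ) : Pool.Agent.H723R2.LSW.Mer x (Pool.Agent.H499R2.CO.Tz 1 x) := by
  rw [T_eq]; exact ⟨1, 0, rfl⟩

theorem apart_eq (N H : ℕ) (x : ℤ) : apart N H x = Pool.Agent.H499R2.CO.bad N H x := by
  unfold apart Pool.Agent.H499R2.CO.bad
  congr 1
  ext h
  simp only [Set.mem_ofPred_eq, f_iter, ne_eq, Int.cast_inj]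

/-- Let `s = 1` or `s = -1`.
* For every `ε > 0` there is `θ > 0` such that for all large `N`, with `H = ⌊N ^ θ⌋`, for all but at
  most `ε N` of the `1 ≤ n ≤ N` all but at most `ε H` of the `1 ≤ h ≤ H` satisfy
  `f₀^t (s n + h) = f₀^t (s n)` for some `t ≤ log₂ N`.
* If an integer of sign `s` lies in a wandering domain, then the integers which do almost fill a
  positive proportion of the intervals `[s n, s n + n ^ θ]`.
* The same for the integers attracted to any integer cycle of sign `s`. -/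
theorem result (s : ℤ) (hs : s = 1 ∨ s = -1) :
    (∀ ε : ℝ, 0 < ε → ∃ θ : ℝ, 0 < θ ∧ ∃ N0 : ℕ, ∀ N ≥ N0,
      ({n : ℕ | 1 ≤ n ∧ n ≤ N ∧ ε * ⌊(N : ℝ) ^ θ⌋₊ < apart N ⌊(N : ℝ) ^ θ⌋₊ (s * n)}.ncard : ℝ)
        ≤ ε * N) ∧
    ((∃ x : ℤ, 0 < s * x ∧ x ∈ WanderingIntegers) → FillsIntervals s WanderingIntegers) ∧
    (∀ (a : ℤ) (p : ℕ), 0 < s * a → 0 < p → f₀^[p] (a : ℂ) = a → FillsIntervals s (BasinIntegers a p)) := by
  refine ⟨fun ε hε => ?_, ?_, ?_⟩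
  · simp only [apart_eq]
    exact Pool.Agent.H499R2.CO.bad_count hs hε
  · rintro ⟨x, hx, hxd⟩
    refine Pool.Agent.H499R2.CO.inv_solid hs (R := WanderingIntegers) (fun x => ?_) ⟨x, hxd, hx⟩
    have h1 : ∀ y : ℤ, y ∈ WanderingIntegers ↔ Pool.Agent.H723R2.LSW.Wild y := fun y =>
      Pool.Agent.H723R2.LSW.wandering_iff y
    rw [h1, h1]
    exact ⟨Pool.Agent.H723R2.LSW.wild_mer (mer_T x), Pool.Agent.H723R2.LSW.wild_mer (mer_T x).symm⟩
  · intro a p ha hp hpa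
    have hpa' : (Pool.Agent.H723R2.LSW.T)^[p] a = a := Pool.Agent.H723R2.LSW.cast_iter.1 hpa
    have h1 : ∀ y : ℤ, y ∈ BasinIntegers a p ↔ Pool.Agent.H723R2.LSW.Mer y a := fun y =>
      Pool.Agent.H723R2.LSW.basin_iff hp hpa'
    refine Pool.Agent.H499R2.CO.inv_solid hs (R := BasinIntegers a p) (fun x => ?_)
      ⟨a, (h1 a).2 (Pool.Agent.H723R2.LSW.Mer.refl a), ha⟩
    rw [h1, h1]
    exact ⟨(mer_T x).symm.trans, (mer_T x).trans⟩

end Pool.Agent.Results.MP_071ec9_an.SolidDomains
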