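import Mathlib
import Pool.Agent.H723R2.LSWDens
import Pool.Agent.H499R2.CO.S3

set_option autoImplicit false

open Filter Topology Metric Set

namespace Pool.Agent.Results.MP_071ec9_an.SufficientSets

open Pool.Agent.H384R2.Fatou

/-- The entire function of Letherman, Schleicher and Wood; `f₀ n = T n` for every integer `n`, where
`T` is the `3x+1` function. -/
noncomputable def f₀ (z : ℂ) : ℂ :=
  z / 2 + (z + 1 / 2) * ((1 - Complex.cos (Real.pi * z)) / 2) +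
    1 / Real.pi * (1 / 2 - Complex.cos (Real.pi * z)) * Complex.sin (Real.pi * z)

/-- The number of elements of `S` among `x + 1, ..., x + H`. -/
noncomputable def count (S : Set ℤ) (x : ℤ) (H : ℕ) : ℕ := {h : ℕ | 1 ≤ h ∧ h ≤ H ∧ x + h ∈ S}.ncard

/-- For every `ε > 0` there is `c > 0` such that for every `θ > 0` and for infinitely many `N`, with
`H = ⌊N ^ θ⌋`: all but at most `ε N` of the `1 ≤ n ≤ N` are such that at least `c H` of the integers
`s n + 1, ..., s n + H` are in `S`. -/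
def Spread (s : ℤ) (S : Set ℤ) : Prop :=
  ∀ ε : ℝ, 0 < ε → ∃ c : ℝ, 0 < c ∧ ∀ θ : ℝ, 0 < θ → ∃ᶠ N : ℕ in atTop,
    ({n : ℕ | 1 ≤ n ∧ n ≤ N ∧ (count S (s * n) ⌊(N : ℝ) ^ θ⌋₊ : ℝ) < c * ⌊(N : ℝ) ^ θ⌋₊}.ncard : ℝ)
      ≤ ε * N

theorem T_eq (x : ℤ) : Pool.Agent.H499R2.CO.Tz 1 x = Pool.Agent.H723R2.LSW.T x := by
  rcases Int.even_or_odd' x with ⟨c, rfl | rfl⟩
  · rw [Pool.Agent.H723R2.LSW.T_even]; unfold Pool.Agent.H499R2.CO.Tz; split_ifs <;> omega
  · rw [Pool.Agent.H723R2.LSW.T_odd]; unfold Pool.Agent.H499R2.CO.Tz; split_ifs <;> omega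

theorem mer_T (x : ℤ) : Pool.Agent.H723R2.LSW.Mer x (Pool.Agent.H499R2.CO.Tz 1 x) := by
  rw [T_eq]; exact ⟨1, 0, rfl⟩

/-- Let `s = 1` or `s = -1`, and let `S` be a set of integers which is not too sparse in most short
intervals of the side `s` (for instance a set with bounded gaps).
* If no integer of sign `s` in `S` lies in a wandering domain of `f₀`, then no integer of sign `s` does.
* If every integer of sign `s` in `S` lies in a Fatou component attracted to one of the integer cycles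
  through the points of a given set `A`, then every integer of sign `s` does. -/
theorem result (s : ℤ) (hs : s = 1 ∨ s = -1) (S : Set ℤ) (hS : Spread s S) :
    ((∀ n ∈ S, 0 < s * n → ¬ IsWanderingDomain f₀ (FatouComponent f₀ n)) →
      ∀ n : ℤ, 0 < s * n → ¬ IsWanderingDomain f₀ (FatouComponent f₀ n)) ∧
    (∀ A : Set ℤ, (∀ a ∈ A, ∃ p : ℕ, 0 < p ∧ f₀^[p] (a : ℂ) = a) →
      (∀ n ∈ S, 0 < s * n → ∃ a ∈ A, ∃ p : ℕ, 0 < p ∧ f₀^[p] (a : ℂ) = a ∧ ∃ k : ℕ,
        ∀ z ∈ FatouComponent f₀ n, Tendsto (fun m : ℕ => f₀^[k + p * m] z) atTop (𝓝 (a : ℂ))) →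
      ∀ n : ℤ, 0 < s * n → ∃ a ∈ A, ∃ p : ℕ, 0 < p ∧ f₀^[p] (a : ℂ) = a ∧ ∃ k : ℕ,
        ∀ z ∈ FatouComponent f₀ n, Tendsto (fun m : ℕ => f₀^[k + p * m] z) atTop (𝓝 (a : ℂ))) := by
  have hW : ∀ y : ℤ, IsWanderingDomain f₀ (FatouComponent f₀ y) ↔ Pool.Agent.H723R2.LSW.Wild y := fun y =>
      Pool.Agent.H723R2.LSW.wandering_iff y
  have hB : ∀ (a : ℤ) (p : ℕ), 0 < p → f₀^[p] (a : ℂ) = a → ∀ n : ℤ,
      ((∃ k : ℕ, ∀ z ∈ FatouComponent f₀ n, Tendsto (fun m : ℕ => f₀^[k + p * m] z) atTop (𝓝 (a : ℂ))) ↔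
        Pool.Agent.H723R2.LSW.Mer n a) := by
    intro a p hp hpa n
    have hpa' : (Pool.Agent.H723R2.LSW.T)^[p] a = a := Pool.Agent.H723R2.LSW.cast_iter.1 hpa
    have h1 := Pool.Agent.H723R2.LSW.basin_iff (n := n) hp hpa'
    constructor
    · intro h
      apply h1.1
      refine ⟨Pool.Agent.H723R2.LSW.int_mem_fatou n, ?_, h⟩
      intro hw
      -- the component is attracted to the cycle, so the orbit of `n` ends in it
      obtain ⟨k, hk⟩ := h
      have h5 := hk n (mem_connectedComponentIn (Pool.Agent.H723R2.LSW.int_mem_fatou n))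
      have h6 : ∀ᶠ m : ℕ in atTop, dist (f₀^[k + p * m] (n : ℂ)) (a : ℂ) < 1 :=
        h5.eventually (ball_mem_nhds _ one_pos)
      obtain ⟨m, hm⟩ := h6.exists
      have h7 : f₀^[k + p * m] (n : ℂ) = (((Pool.Agent.H723R2.LSW.T)^[k + p * m] n : ℤ) : ℂ) :=
        Pool.Agent.H723R2.LSW.f₀_iter n _
      rw [h7, dist_eq_norm, ← Int.cast_sub, Complex.norm_intCast] at hm
      have h8 : |(Pool.Agent.H723R2.LSW.T)^[k + p * m] n - a| < 1 := by exact_mod_cast hm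
      have h9 := Int.abs_lt_one_iff.1 h8
      have h10 : (Pool.Agent.H723R2.LSW.T)^[k + p * m] n = a := by omega
      have h11 := (hW n).1 hw (p + (k + p * m)) (k + p * m) (by
        rw [Function.iterate_add_apply, h10, hpa'])
      omega
    · intro h
      exact (h1.2 h).2.2
  refine ⟨fun h => ?_, fun A hA h => ?_⟩
  · refine Pool.Agent.H499R2.CO.spread_inv hs
      (R := {n : ℤ | ¬ IsWanderingDomain f₀ (FatouComponent f₀ n)}) (fun x => ?_) S hS h
    show ¬ IsWanderingDomain f₀ (FatouComponent f₀ x) ↔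
      ¬ IsWanderingDomain f₀ (FatouComponent f₀ (Pool.Agent.H499R2.CO.Tz 1 x : ℤ))
    rw [hW, hW]
    exact not_congr ⟨Pool.Agent.H723R2.LSW.wild_mer (mer_T x), Pool.Agent.H723R2.LSW.wild_mer (mer_T x).symm⟩
  · have key : ∀ n : ℤ, (∃ a ∈ A, ∃ p : ℕ, 0 < p ∧ f₀^[p] (a : ℂ) = a ∧ ∃ k : ℕ,
        ∀ z ∈ FatouComponent f₀ n, Tendsto (fun m : ℕ => f₀^[k + p * m] z) atTop (𝓝 (a : ℂ))) ↔
        ∃ a ∈ A, Pool.Agent.H723R2.LSW.Mer n a := by
      intro n
      constructor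
      · rintro ⟨a, ha, p, hp, hpa, hk⟩
        exact ⟨a, ha, (hB a p hp hpa n).1 hk⟩
      · rintro ⟨a, ha, hm⟩
        obtain ⟨p, hp, hpa⟩ := hA a ha
        exact ⟨a, ha, p, hp, hpa, (hB a p hp hpa n).2 hm⟩
    have h2 := Pool.Agent.H499R2.CO.spread_inv hs
      (R := {n : ℤ | ∃ a ∈ A, Pool.Agent.H723R2.LSW.Mer n a}) (fun x => ?_) S hS
      (fun x hx hsx => (key x).1 (h x hx hsx))
    · intro n hn
      exact (key n).2 (h2 n hn)
    · constructor
      · rintro ⟨a, ha, hm⟩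
        exact ⟨a, ha, (mer_T x).symm.trans hm⟩
      · rintro ⟨a, ha, hm⟩
        exact ⟨a, ha, (mer_T x).trans hm⟩

end Pool.Agent.Results.MP_071ec9_an.SufficientSets
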